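import Mathlib

/-! # Clean rings whose units are weakly nil-clean: reduction to rings in which `2` is nilpotent

(problem MP_0ec41e_al). Let `R` be a clean ring all of whose units are weakly nil-clean.

* For an idempotent `e` the unit `1 - 2 e` is `± f + n`, so `g - 2 e` (or `g - 2 (1 - e)`) is
  nilpotent for the idempotent `g = 1 - f`. With `z = (g - e)²`, which commutes with `g` and `e`,
  the nilpotent element `n = g - 2 e` satisfies `n² + n = 2 z`, so it commutes with `e`
  (`com_of_sq`), and then `g = 0`. So `2 e` or `2 (1 - e)` is nilpotent (`two_idem`).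
* So, modulo the ideal of the elements of order a power of `2`, every element is congruent to
  `n`, `1 + n`, `-1 + n` or `2 + n` with a nilpotent element `n`. For the element `3` this shows
  that `6` is nilpotent (`six`).
* `2 ^ k * 3 ^ m = 0` gives the central idempotent `c`.
-/

set_option autoImplicit false

namespace Pool.Agent.CleanUWNC

universe u

/-- `a` is weakly nil-clean: `a - e` or `a + e` is nilpotent for an idempotent `e`. -/
def WNil {R : Type*} [Ring R] (a : R) : Prop :=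
  ∃ e : R, e * e = e ∧ (IsNilpotent (a - e) ∨ IsNilpotent (a + e))

/-- `a` is nil-clean: `a - e` is nilpotent for an idempotent `e`. -/
def NilC {R : Type*} [Ring R] (a : R) : Prop :=
  ∃ e : R, e * e = e ∧ IsNilpotent (a - e)

/-- Every unit is weakly nil-clean. -/
def UWNC (R : Type*) [Ring R] : Prop := ∀ u : R, IsUnit u → WNil u

/-- Every element is the sum of an idempotent and a unit. -/
def Clean (R : Type*) [Ring R] : Prop := ∀ a : R, ∃ e u : R, e * e = e ∧ IsUnit u ∧ a = e + u

section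

variable {R : Type*} [Ring R]

/-- If `n` is nilpotent and `n² + n` commutes with `e` then `n` commutes with `e`. -/
theorem com_of_sq {n e : R} (hn : IsNilpotent n) (h : (n * n + n) * e = e * (n * n + n)) :
    n * e = e * n := by
  have h1 : IsNilpotent (LinearMap.mulLeft ℤ n) := by
    obtain ⟨k, hk⟩ := hn
    refine ⟨k, ?_⟩
    rw [LinearMap.pow_mulLeft, hk]
    ext x
    simp
  have h2 : IsNilpotent (LinearMap.mulRight ℤ n) := by
    obtain ⟨k, hk⟩ := hn
    refine ⟨k, ?_⟩
    rw [LinearMap.pow_mulRight, hk]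
    ext x
    simp
  have h3 : IsNilpotent (LinearMap.mulLeft ℤ n + LinearMap.mulRight ℤ n) :=
    (LinearMap.commute_mulLeft_right (R := ℤ) n n).isNilpotent_add h1 h2
  obtain ⟨v, hv⟩ := h3.isUnit_one_add
  have h4 : (1 + (LinearMap.mulLeft ℤ n + LinearMap.mulRight ℤ n)) (n * e - e * n) = 0 := by
    simp only [LinearMap.add_apply, Module.End.one_apply, LinearMap.mulLeft_apply,
      LinearMap.mulRight_apply]
    have h5 := sub_eq_zero.2 h
    rw [← h5]
    noncomm_ring
  rw [← hv] at h4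
  have h5 : n * e - e * n = 0 := by
    have h6 := congrArg (fun x => (v⁻¹ : (Module.End ℤ R)ˣ).1 x) h4
    simpa [← Module.End.mul_apply] using h6
  exact sub_eq_zero.1 h5

/-- A nilpotent idempotent is zero. -/
theorem idem_nil {e : R} (he : e * e = e) (h : IsNilpotent e) : e = 0 := by
  obtain ⟨k, hk⟩ := h
  have h1 : ∀ j : ℕ, e ^ (j + 1) = e := by
    intro j
    induction j with
    | zero => rw [zero_add, pow_one]
    | succ j ih => rw [pow_succ, ih, he]
  rw [← h1 k, pow_succ, hk, zero_mul]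

/-- If `g - 2 e` is nilpotent for two idempotents then `2 e` is nilpotent. -/
theorem two_of_sub {g e : R} (hg : g * g = g) (he : e * e = e)
    (hn : IsNilpotent (g - 2 * e)) : IsNilpotent (2 * e) := by
  have hc : (g - 2 * e) * e = e * (g - 2 * e) := by
    refine com_of_sq hn ?_
    have h1 : (g - 2 * e) * (g - 2 * e) + (g - 2 * e) =
        2 * (g + e - g * e - e * g) := by
      have : (g - 2 * e) * (g - 2 * e) = g * g - 2 * (g * e) - 2 * (e * g) + 4 * (e * e) := by
        noncomm_ring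
      rw [this, hg, he]
      noncomm_ring
    rw [h1]
    have h2 : (2 * (g + e - g * e - e * g)) * e =
        2 * (g * e + e * e - g * (e * e) - e * g * e) := by
      noncomm_ring
    have h3 : e * (2 * (g + e - g * e - e * g)) = 2 * (e * g + e * e - e * g * e - e * e * g) := by
      noncomm_ring
    rw [h2, h3, he]
    noncomm_ring
  have hge : g * e = e * g := by
    have h1 : (g - 2 * e) * e = g * e - 2 * (e * e) := by noncomm_ring
    have h2 : e * (g - 2 * e) = e * g - 2 * (e * e) := by noncomm_ring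
    rw [h1, h2] at hc
    exact sub_left_injective hc
  -- `g (1 - e) = 0`
  have h4 : IsNilpotent (g * (1 - e)) := by
    have h5 : Commute (1 - e) (g - 2 * e) := by
      have : Commute e (g - 2 * e) := hc.symm
      exact (Commute.one_left _).sub_left this
    have h6 := h5.isNilpotent_mul_left hn
    have h7 : (1 - e) * (g - 2 * e) = g * (1 - e) := by
      have : (1 - e) * (g - 2 * e) = g - e * g - 2 * e + 2 * (e * e) := by noncomm_ring
      rw [this, he, ← hge]
      noncomm_ring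
    rwa [h7] at h6
  have h8 : g * (1 - e) = 0 := by
    refine idem_nil ?_ h4
    have : g * (1 - e) * (g * (1 - e)) = g * (g - e * g) * (1 - e) := by noncomm_ring
    rw [this, ← hge]
    have : g * (g - g * e) * (1 - e) = g * g * ((1 - e) - e + e * e) := by noncomm_ring
    rw [this, hg, he]
    noncomm_ring
  have h9 : g = g * e := by
    have : g * (1 - e) = g - g * e := by noncomm_ring
    rw [this] at h8
    exact sub_eq_zero.1 h8
  -- `g e = 0`
  have h10 : IsNilpotent (g * e) := by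
    have h5 : Commute (g * e) (g - 2 * e) := by
      have h6 : Commute e (g - 2 * e) := hc.symm
      have h7 : Commute g (g - 2 * e) := by
        have : Commute g e := hge
        exact (Commute.refl g).sub_right ((Commute.ofNat_right g 2).mul_right this)
      exact h7.mul_left h6
    have h6 := (h5.isNilpotent_mul_left hn).neg
    have h7 : -(g * e * (g - 2 * e)) = g * e := by
      have : -(g * e * (g - 2 * e)) = 2 * (g * (e * e)) - g * (e * g) := by noncomm_ring
      have h8 : g * (g * e) = g * e := by rw [← mul_assoc, hg]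
      rw [this, he, ← hge, h8]
      noncomm_ring
    rwa [h7] at h6
  have h11 : g * e = 0 := by
    refine idem_nil ?_ h10
    have : g * e * (g * e) = g * (e * g) * e := by noncomm_ring
    rw [this, ← hge]
    have : g * (g * e) * e = g * g * (e * e) := by noncomm_ring
    rw [this, hg, he]
  have h12 : g = 0 := h9.trans h11
  rw [h12, zero_sub] at hn
  simpa using hn.neg

theorem two_idem (hu : UWNC R) {e : R} (he : e * e = e) :
    IsNilpotent (2 * e) ∨ IsNilpotent (2 * (1 - e)) := by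
  have h1 : (1 - 2 * e) * (1 - 2 * e) = 1 := by
    have : (1 - 2 * e) * (1 - 2 * e) = 1 - 4 * e + 4 * (e * e) := by noncomm_ring
    rw [this, he]
    noncomm_ring
  obtain ⟨f, hf, h | h⟩ := hu (1 - 2 * e) ⟨⟨_, _, h1, h1⟩, rfl⟩
  · left
    refine two_of_sub (g := 1 - f) ?_ he ?_
    · have : (1 - f) * (1 - f) = 1 - f - f + f * f := by noncomm_ring
      rw [this, hf]
      noncomm_ring
    · have : 1 - f - 2 * e = 1 - 2 * e - f := by noncomm_ring
      rwa [this]
  · right
    refine two_of_sub (g := 1 - f) (e := 1 - e) ?_ ?_ ?_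
    · have : (1 - f) * (1 - f) = 1 - f - f + f * f := by noncomm_ring
      rw [this, hf]
      noncomm_ring
    · have : (1 - e) * (1 - e) = 1 - e - e + e * e := by noncomm_ring
      rw [this, he]
      noncomm_ring
    · have : 1 - f - 2 * (1 - e) = -(1 - 2 * e + f) := by noncomm_ring
      rw [this]
      exact h.neg

/-- A central nilpotent multiple may be added to a nilpotent element. -/
theorem nil_add {a z b : R} (ha : IsNilpotent a) (hz : ∀ x, z * x = x * z)
    (hzn : IsNilpotent z) : IsNilpotent (a + z * b) := by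
  obtain ⟨N, hN⟩ := ha
  obtain ⟨k, hk⟩ := hzn
  have h1 : ∀ j : ℕ, ∃ r, (a + z * b) ^ j = a ^ j + z * r := by
    intro j
    induction j with
    | zero => exact ⟨0, by simp⟩
    | succ j ih =>
      obtain ⟨r, hr⟩ := ih
      refine ⟨a ^ j * b + r * a + r * (z * b), ?_⟩
      rw [pow_succ, hr, pow_succ]
      have h2 : a ^ j * (z * b) = z * (a ^ j * b) := by rw [← mul_assoc, ← hz, mul_assoc]
      rw [add_mul, mul_add, mul_add, h2]
      noncomm_ring
  obtain ⟨r, hr⟩ := h1 N
  refine ⟨N * k, ?_⟩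
  rw [pow_mul, hr, hN, zero_add, (show Commute z r from hz r).mul_pow, hk, zero_mul]

/-- A central multiple of a nilpotent element is nilpotent. -/
theorem nil_mul {a z : R} (ha : IsNilpotent a) (hz : ∀ x, z * x = x * z) :
    IsNilpotent (z * a) :=
  (show Commute z a from hz a).isNilpotent_mul_left ha

theorem pow_idem {e : R} (he : e * e = e) (j : ℕ) : e ^ (j + 1) = e := by
  induction j with
  | zero => rw [zero_add, pow_one]
  | succ j ih => rw [pow_succ, ih, he]

theorem two_cases (hu : UWNC R) {e : R} (he : e * e = e) :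
    ∃ (J : ℕ) (c : R), (c = 0 ∨ c = 1) ∧ 2 ^ J * e = 2 ^ J * c := by
  have h0 : ∀ g : R, g * g = g → IsNilpotent (2 * g) → ∃ J : ℕ, 2 ^ J * g = 0 := by
    rintro g hg ⟨k, hk⟩
    refine ⟨k + 1, ?_⟩
    have h1 : (2 * g) ^ (k + 1) = 2 ^ (k + 1) * g ^ (k + 1) :=
      (Commute.ofNat_left 2 g).mul_pow _
    rw [pow_idem hg] at h1
    rw [← h1, pow_succ, hk, zero_mul]
  rcases two_idem hu he with h | h
  · obtain ⟨J, hJ⟩ := h0 e he h
    exact ⟨J, 0, Or.inl rfl, by rw [hJ, mul_zero]⟩
  · obtain ⟨J, hJ⟩ := h0 (1 - e) (by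
      have : (1 - e) * (1 - e) = 1 - e - e + e * e := by noncomm_ring
      rw [this, he]
      noncomm_ring) h
    refine ⟨J, 1, Or.inr rfl, ?_⟩
    rw [mul_sub, sub_eq_zero] at hJ
    exact hJ.symm

theorem mod_T (hc : Clean R) (hu : UWNC R) (x : R) :
    ∃ (J : ℕ) (c n : R), (c = -1 ∨ c = 0 ∨ c = 1 ∨ c = 2) ∧ IsNilpotent n ∧
      2 ^ J * x = 2 ^ J * (c + n) := by
  obtain ⟨e, u, he, hunit, rfl⟩ := hc x
  obtain ⟨f, hf, hn⟩ := hu u hunit
  obtain ⟨J₁, c₁, hc₁, h₁⟩ := two_cases hu he
  obtain ⟨J₂, c₂, hc₂, h₂⟩ := two_cases hu hf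
  have k₁ : 2 ^ (J₁ + J₂) * e = 2 ^ (J₁ + J₂) * c₁ := by
    rw [add_comm, pow_add, mul_assoc, h₁, mul_assoc]
  have k₂ : 2 ^ (J₁ + J₂) * f = 2 ^ (J₁ + J₂) * c₂ := by
    rw [pow_add, mul_assoc, h₂, mul_assoc]
  rcases hn with hn | hn
  · refine ⟨J₁ + J₂, c₁ + c₂, u - f, ?_, hn, ?_⟩
    · rcases hc₁ with rfl | rfl <;> rcases hc₂ with rfl | rfl <;> norm_num
    · have h3 : e + u = e + f + (u - f) := by abel
      rw [h3, mul_add, mul_add, k₁, k₂]
      noncomm_ring
  · refine ⟨J₁ + J₂, c₁ - c₂, u + f, ?_, hn, ?_⟩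
    · rcases hc₁ with rfl | rfl <;> rcases hc₂ with rfl | rfl <;> norm_num
    · have h3 : e + u = e - f + (u + f) := by abel
      rw [h3, mul_add, mul_sub, k₁, k₂]
      noncomm_ring

theorem six (hc : Clean R) (hu : UWNC R) : ∃ k m : ℕ, (2 : R) ^ k * 3 ^ m = 0 := by
  obtain ⟨J, c, n, hcc, ⟨N, hN⟩, h⟩ := mod_T hc hu 3
  have h1 : 2 ^ J * (3 - c) = 2 ^ J * n := by
    rw [mul_sub, h, mul_add]
    abel
  have h2 : ∀ y : R, (2 ^ J * y) ^ N = 2 ^ (J * N) * y ^ N := by
    intro y
    have h3 : Commute ((2 : R) ^ J) y := (Commute.ofNat_left 2 y).pow_left J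
    rw [h3.mul_pow, pow_mul]
  have h3 : 2 ^ (J * N) * (3 - c) ^ N = 0 := by
    rw [← h2, h1, h2, hN, mul_zero]
  rcases hcc with rfl | rfl | rfl | rfl
  · refine ⟨J * N + 2 * N, 0, ?_⟩
    have h4 : (3 - -1 : R) = 2 ^ 2 := by norm_num
    rw [h4, ← pow_mul, ← pow_add] at h3
    rw [h3, zero_mul]
  · refine ⟨J * N, N, ?_⟩
    rwa [sub_zero] at h3
  · refine ⟨J * N + N, 0, ?_⟩
    have h4 : (3 - 1 : R) = 2 := by norm_num
    rw [h4, ← pow_add] at h3
    rw [h3, zero_mul]
  · refine ⟨J * N, 0, ?_⟩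
    have h4 : (3 - 2 : R) = 1 := by norm_num
    rw [h4, one_pow] at h3
    rwa [pow_zero]

/-- The central idempotent. -/
theorem structure_thm (hc : Clean R) (hu : UWNC R) :
    ∃ c : R, c * c = c ∧ (∀ x, c * x = x * c) ∧ (∃ k : ℕ, (2 : R) ^ k * c = 0) ∧
      (∃ m : ℕ, (3 : R) ^ m * (1 - c) = 0) ∧
      (∀ x : R, IsNilpotent ((1 - c) * x) ∨ IsNilpotent ((1 - c) * (x - 1)) ∨
        IsNilpotent ((1 - c) * (x + 1))) ∧
      (∀ u : R, IsUnit u → NilC (c * u)) ∧ ((∀ x : R, WNil x) ↔ ∀ x : R, NilC (c * x)) := by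
  obtain ⟨k, m, hkm⟩ := six hc hu
  obtain ⟨a, b, hab⟩ : IsCoprime ((3 : ℤ) ^ m) (2 ^ k) :=
    IsCoprime.pow ⟨1, -1, by norm_num⟩
  have hz : ((2 ^ k * 3 ^ m : ℤ) : R) = 0 := by
    push_cast
    exact hkm
  have hz' : ∀ z : ℤ, ((z * (2 ^ k * 3 ^ m) : ℤ) : R) = 0 := by
    intro z
    rw [Int.cast_mul, hz, mul_zero]
  obtain ⟨c, hcdef⟩ : ∃ c : R, c = ((a * 3 ^ m : ℤ) : R) := ⟨_, rfl⟩
  have hd : 1 - c = ((b * 2 ^ k : ℤ) : R) := by
    rw [hcdef, ← Int.cast_one, ← Int.cast_sub, ← hab]
    congr 1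
    ring
  have hcc : ∀ x, c * x = x * c := by
    intro x
    rw [hcdef]
    exact Int.cast_comm _ x
  have hdc : ∀ x, (1 - c) * x = x * (1 - c) := by
    intro x
    rw [hd]
    exact Int.cast_comm _ x
  have hcd : c * (1 - c) = 0 := by
    rw [hd, hcdef, ← Int.cast_mul, ← hz' (a * b)]
    congr 1
    ring
  have hc2 : c * c = c := by
    rw [mul_sub, mul_one, sub_eq_zero] at hcd
    exact hcd.symm
  have hd2 : (1 - c) * (1 - c) = 1 - c := by
    have : (1 - c) * (1 - c) = 1 - c - c + c * c := by noncomm_ring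
    rw [this, hc2]
    noncomm_ring
  have hk : (2 : R) ^ k * c = 0 := by
    rw [hcdef, ← hz' a]
    push_cast
    rw [← mul_assoc, ← mul_assoc]
    congr 1
    have := (Int.cast_commute a ((2 : R) ^ k)).eq
    rw [this]
  have hm : (3 : R) ^ m * (1 - c) = 0 := by
    have h1 : ((3 ^ m : ℤ) : R) * ((b * 2 ^ k : ℤ) : R) = 0 := by
      rw [← Int.cast_mul, ← hz' b]
      congr 1
      ring
    rw [hd]
    rw [← h1]
    push_cast
    rfl
  have h2c : IsNilpotent (2 * c) := by
    refine ⟨k + 1, ?_⟩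
    rw [(Commute.ofNat_left 2 c).mul_pow, pow_idem hc2, pow_succ', mul_assoc, hk, mul_zero]
  have h2cc : ∀ x, 2 * c * x = x * (2 * c) := fun x => by
    rw [mul_assoc, hcc, ← mul_assoc, ← mul_assoc, (Commute.ofNat_left 2 x).eq]
  have h3d : IsNilpotent (3 * (1 - c)) := by
    refine ⟨m + 1, ?_⟩
    rw [(Commute.ofNat_left 3 (1 - c)).mul_pow, pow_idem hd2, pow_succ', mul_assoc, hm, mul_zero]
  have h3dc : ∀ x, 3 * (1 - c) * x = x * (3 * (1 - c)) := fun x => by
    rw [mul_assoc, hdc, ← mul_assoc, ← mul_assoc, (Commute.ofNat_left 3 x).eq]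
  have hkill : ∀ (J : ℕ) (y : R), 2 ^ J * y = 0 → (1 - c) * y = 0 := by
    intro J y hy
    obtain ⟨p, q, hpq⟩ : IsCoprime ((2 : ℤ) ^ J) (3 ^ m) :=
      IsCoprime.pow ⟨-1, 1, by norm_num⟩
    have h1 : (1 : R) = (p : R) * 2 ^ J + (q : R) * 3 ^ m := by
      have := congrArg (fun z : ℤ => (z : R)) hpq
      push_cast at this
      exact this.symm
    calc (1 - c) * y = ((p : R) * 2 ^ J + (q : R) * 3 ^ m) * ((1 - c) * y) := by
          rw [← h1, one_mul]
      _ = (p : R) * (2 ^ J * ((1 - c) * y)) + (q : R) * (3 ^ m * (1 - c) * y) := by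
          noncomm_ring
      _ = 0 := by
          rw [hm, hdc, ← mul_assoc (2 ^ J), hy]
          simp
  have hx : ∀ x : R, IsNilpotent ((1 - c) * x) ∨ IsNilpotent ((1 - c) * (x - 1)) ∨
      IsNilpotent ((1 - c) * (x + 1)) := by
    intro x
    obtain ⟨J, c', n, hc', hn, h⟩ := mod_T hc hu x
    have h1 : (1 - c) * (x - (c' + n)) = 0 := by
      refine hkill J _ ?_
      rw [mul_sub, h, sub_self]
    have h2 : (1 - c) * x = (1 - c) * c' + (1 - c) * n := by
      rw [mul_sub, sub_eq_zero, mul_add] at h1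
      exact h1
    have h3 := nil_mul hn hdc
    rcases hc' with rfl | rfl | rfl | rfl
    · right; right
      have : (1 - c) * (x + 1) = (1 - c) * n := by
        rw [mul_add, h2]
        noncomm_ring
      rwa [this]
    · left
      rw [h2, mul_zero, zero_add]
      exact h3
    · right; left
      have : (1 - c) * (x - 1) = (1 - c) * n := by
        rw [mul_sub, h2]
        noncomm_ring
      rwa [this]
    · right; right
      have : (1 - c) * (x + 1) = (1 - c) * n + 3 * (1 - c) * 1 := by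
        rw [mul_add, h2]
        noncomm_ring
      rw [this]
      exact nil_add h3 h3dc h3d
  have hcf : ∀ f : R, f * f = f → c * f * (c * f) = c * f := by
    intro f hf
    have : c * f * (c * f) = c * (f * c) * f := by noncomm_ring
    rw [this, ← hcc f]
    have : c * (c * f) * f = c * c * (f * f) := by noncomm_ring
    rw [this, hc2, hf]
  have hwc : ∀ x : R, WNil x → NilC (c * x) := by
    rintro x ⟨f, hf, h | h⟩
    · refine ⟨c * f, hcf f hf, ?_⟩
      rw [← mul_sub]
      exact nil_mul h hcc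
    · refine ⟨c * f, hcf f hf, ?_⟩
      have : c * x - c * f = c * (x + f) + 2 * c * (-f) := by noncomm_ring
      rw [this]
      exact nil_add (nil_mul h hcc) h2cc h2c
  have hsum : ∀ a b : R, IsNilpotent (c * a) → IsNilpotent ((1 - c) * b) →
      IsNilpotent (c * a + (1 - c) * b) := by
    intro a b ha hb
    have h1 : ∀ p q : R, c * p * ((1 - c) * q) = 0 := by
      intro p q
      have : c * p * ((1 - c) * q) = c * (p * (1 - c)) * q := by noncomm_ring
      rw [this, ← hdc, ← mul_assoc, hcd, zero_mul, zero_mul]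
    have h2 : ∀ p q : R, (1 - c) * q * (c * p) = 0 := by
      intro p q
      have : (1 - c) * q * (c * p) = (1 - c) * (q * c) * p := by noncomm_ring
      have h3 : (1 - c) * c = 0 := by rw [← hcc, hcd]
      rw [this, ← hcc, ← mul_assoc, h3, zero_mul, zero_mul]
    have h3 : Commute (c * a) ((1 - c) * b) := by
      show c * a * ((1 - c) * b) = (1 - c) * b * (c * a)
      rw [h1, h2]
    exact h3.isNilpotent_add ha hb
  refine ⟨c, hc2, hcc, ⟨k, hk⟩, ⟨m, hm⟩, hx, fun u hun => hwc u (hu u hun),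
    fun h x => hwc x (h x), fun h x => ?_⟩
  obtain ⟨f, hf, hn⟩ := h x
  have hn1 : IsNilpotent (c * (x - f)) := by
    have h1 := nil_mul hn hcc
    have h2 : c * (c * x - f) = c * (x - f) := by
      have : c * (c * x - f) = c * c * x - c * f := by noncomm_ring
      rw [this, hc2]
      noncomm_ring
    rwa [h2] at h1
  have hn2 : IsNilpotent (c * (x + f)) := by
    have : c * (x + f) = c * (x - f) + 2 * c * f := by noncomm_ring
    rw [this]
    exact nil_add hn1 h2cc h2c
  have he : (c * f + (1 - c)) * (c * f + (1 - c)) = c * f + (1 - c) := by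
    have h1 : c * f * (1 - c) = 0 := by
      rw [← hdc, ← mul_assoc, ← hcc, hcd, zero_mul]
    have h2 : (1 - c) * (c * f) = 0 := by
      rw [← mul_assoc, ← hcc, hcd, zero_mul]
    rw [add_mul, mul_add, mul_add, hcf f hf, h1, h2, hd2]
    simp
  rcases hx x with h3 | h3 | h3
  · refine ⟨c * f, hcf f hf, Or.inl ?_⟩
    have : x - c * f = c * (x - f) + (1 - c) * x := by noncomm_ring
    rw [this]
    exact hsum _ _ hn1 h3
  · refine ⟨c * f + (1 - c), he, Or.inl ?_⟩
    have : x - (c * f + (1 - c)) = c * (x - f) + (1 - c) * (x - 1) := by noncomm_ring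
    rw [this]
    exact hsum _ _ hn1 h3
  · refine ⟨c * f + (1 - c), he, Or.inr ?_⟩
    have : x + (c * f + (1 - c)) = c * (x + f) + (1 - c) * (x + 1) := by noncomm_ring
    rw [this]
    exact hsum _ _ hn2 h3

/-- The ideal of the elements whose `c`-component is divisible by `2`. -/
def idA (c : R) (hc : ∀ x, c * x = x * c) : Ideal R where
  carrier := {x | ∃ b, c * x = 2 * b}
  add_mem' := by
    rintro x y ⟨b, hb⟩ ⟨b', hb'⟩
    exact ⟨b + b', by rw [mul_add, hb, hb', mul_add]⟩
  zero_mem' := ⟨0, by rw [mul_zero, mul_zero]⟩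
  smul_mem' := by
    rintro r x ⟨b, hb⟩
    refine ⟨r * b, ?_⟩
    rw [smul_eq_mul, ← mul_assoc, hc r, mul_assoc, hb, ← mul_assoc, ← mul_assoc,
      (Commute.ofNat_left 2 r).eq]

instance (c : R) (hc : ∀ x, c * x = x * c) : (idA c hc).IsTwoSided where
  mul_mem_of_left := by
    rintro x r ⟨b, hb⟩
    exact ⟨b * r, by rw [← mul_assoc, hb, mul_assoc]⟩

/-- The ideal of the multiples of `2 c`. -/
def idB (c : R) (hc : ∀ x, c * x = x * c) : Ideal R where
  carrier := {x | ∃ b, x = 2 * c * b}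
  add_mem' := by
    rintro x y ⟨b, rfl⟩ ⟨b', rfl⟩
    exact ⟨b + b', by rw [mul_add]⟩
  zero_mem' := ⟨0, by rw [mul_zero]⟩
  smul_mem' := by
    rintro r x ⟨b, rfl⟩
    refine ⟨r * b, ?_⟩
    have : r * (2 * c * b) = 2 * (r * c) * b := by noncomm_ring
    rw [smul_eq_mul, this, ← hc]
    noncomm_ring

instance (c : R) (hc : ∀ x, c * x = x * c) : (idB c hc).IsTwoSided where
  mul_mem_of_left := by
    rintro x r ⟨b, rfl⟩
    exact ⟨b * r, by rw [mul_assoc]⟩

theorem lift_one {c : R} (hc : ∀ x, c * x = x * c) (hn : ∀ b : R, IsNilpotent (2 * c * b))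
    {a z : R} (ha : a * a - a = 2 * c * z) :
    ∃ f b : R, f * f = f ∧ f = a + 2 * c * b := by
  obtain ⟨f, hf, hfa⟩ := exists_isIdempotentElem_eq_of_ker_isNilpotent
    (Ideal.Quotient.mk (idB c hc)) (fun x hx => by
      obtain ⟨b, rfl⟩ := Ideal.Quotient.eq_zero_iff_mem.1 hx
      exact hn b) (Ideal.Quotient.mk (idB c hc) a) ⟨a, rfl⟩ (by
      show _ * _ = _
      rw [← map_mul, Ideal.Quotient.eq]
      exact ⟨z, ha⟩)
  obtain ⟨b, hb⟩ := Ideal.Quotient.eq.1 hfa
  exact ⟨f, b, hf, by rw [← hb]; abel⟩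

end

/-- Reduction to characteristic `2`. -/
theorem char_two {R : Type u} [Ring R] {c : R} (hc2 : c * c = c) (hcc : ∀ x, c * x = x * c)
    {k : ℕ} (hk : (2 : R) ^ k * c = 0) (hcl : Clean R) (hu : ∀ u : R, IsUnit u → NilC (c * u))
    (h : ∀ (S : Type u) [Ring S], (2 : S) = 0 → Clean S → (∀ u : S, IsUnit u → NilC u) →
      ∀ x : S, NilC x) (x : R) : NilC (c * x) := by
  have h2c : IsNilpotent (2 * c) := by
    refine ⟨k + 1, ?_⟩
    rw [(Commute.ofNat_left 2 c).mul_pow, pow_idem hc2, pow_succ', mul_assoc, hk, mul_zero]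
  have h2cc : ∀ x, 2 * c * x = x * (2 * c) := fun x => by
    rw [mul_assoc, hcc, ← mul_assoc, ← mul_assoc, (Commute.ofNat_left 2 x).eq]
  have hn : ∀ b : R, IsNilpotent (2 * c * b) := by
    intro b
    have := nil_add (a := 0) (b := b) IsNilpotent.zero h2cc h2c
    rwa [zero_add] at this
  have hcb : ∀ y b : R, c * y = 2 * b → c * y = 2 * c * b := by
    intro y b hb
    have h1 : c * (c * y) = c * y := by rw [← mul_assoc, hc2]
    rw [← h1, hb, ← mul_assoc, (Commute.ofNat_right c 2).eq]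
  have hpow : ∀ (y : R) (j : ℕ), (c * y) ^ (j + 1) = c * y ^ (j + 1) := by
    intro y j
    rw [(show Commute c y from hcc y).mul_pow, pow_idem hc2]
  have hnil : ∀ y : R, IsNilpotent (Ideal.Quotient.mk (idA c hcc) y) → IsNilpotent (c * y) := by
    rintro y ⟨N, hN⟩
    rw [← map_pow, Ideal.Quotient.eq_zero_iff_mem] at hN
    obtain ⟨b, hb⟩ := hN
    have h1 : (c * y) ^ (N + 1) = 2 * c * (b * y) := by
      rw [hpow, pow_succ, ← mul_assoc, hcb _ b hb, mul_assoc]
    obtain ⟨j, hj⟩ := hn (b * y)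
    exact ⟨(N + 1) * j, by rw [pow_mul, h1, hj]⟩
  have hmc : Ideal.Quotient.mk (idA c hcc) c = 1 := by
    rw [← map_one (Ideal.Quotient.mk (idA c hcc)), Ideal.Quotient.eq]
    exact ⟨0, by rw [mul_sub, hc2, mul_one, sub_self, mul_zero]⟩
  have hS2 : (2 : R ⧸ idA c hcc) = 0 := by
    have h1 : Ideal.Quotient.mk (idA c hcc) 2 = 0 :=
      Ideal.Quotient.eq_zero_iff_mem.2 ⟨c, (Commute.ofNat_right c 2).eq⟩
    rwa [map_ofNat] at h1
  have hScl : Clean (R ⧸ idA c hcc) := by
    intro s
    obtain ⟨y, rfl⟩ := Ideal.Quotient.mk_surjective s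
    obtain ⟨e, u, he, hun, rfl⟩ := hcl y
    exact ⟨Ideal.Quotient.mk _ e, Ideal.Quotient.mk _ u, by rw [← map_mul, he],
      hun.map (Ideal.Quotient.mk (idA c hcc)), map_add _ _ _⟩
  have hSu : ∀ s : R ⧸ idA c hcc, IsUnit s → NilC s := by
    intro s hs
    obtain ⟨t, ht1, ht2⟩ := isUnit_iff_exists.1 hs
    obtain ⟨y, rfl⟩ := Ideal.Quotient.mk_surjective s
    obtain ⟨z, rfl⟩ := Ideal.Quotient.mk_surjective t
    have key : ∀ p q : R, Ideal.Quotient.mk (idA c hcc) p * Ideal.Quotient.mk (idA c hcc) q = 1 →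
        IsUnit ((c * p + (1 - c)) * (c * q + (1 - c))) := by
      intro p q hpq
      rw [← map_mul, ← map_one (Ideal.Quotient.mk (idA c hcc)), Ideal.Quotient.eq] at hpq
      obtain ⟨b, hb⟩ := hpq
      have h1 : (c * p + (1 - c)) * (c * q + (1 - c)) = 1 + c * (p * q - 1) := by
        have e1 : c * p * (c * q) = c * (p * q) := by
          have : c * p * (c * q) = c * (p * c) * q := by noncomm_ring
          rw [this, ← hcc, ← mul_assoc, hc2, mul_assoc]
        have e2 : c * p * (1 - c) = 0 := by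
          rw [mul_sub, mul_one, ← hcc (c * p), ← mul_assoc, hc2, sub_self]
        have e3 : (1 - c) * (c * q) = 0 := by
          rw [sub_mul, one_mul, ← mul_assoc, hc2, sub_self]
        have e4 : (1 - c) * (1 - c) = 1 - c := by
          have : (1 - c) * (1 - c) = 1 - c - c + c * c := by noncomm_ring
          rw [this, hc2]
          noncomm_ring
        rw [add_mul, mul_add, mul_add, e1, e2, e3, e4]
        noncomm_ring
      rw [h1, hcb _ b hb]
      exact (hn b).isUnit_one_add
    obtain ⟨w, hw, -⟩ := isUnit_iff_exists.1 (key y z ht1)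
    obtain ⟨w', -, hw'⟩ := isUnit_iff_exists.1 (key z y ht2)
    have hy : IsUnit (c * y + (1 - c)) := by
      rw [mul_assoc] at hw
      rw [← mul_assoc] at hw'
      have h1 := left_inv_eq_right_inv hw' hw
      refine isUnit_iff_exists.2 ⟨_, hw, ?_⟩
      rw [← h1, hw']
    obtain ⟨f, hf, hfn⟩ := hu _ hy
    refine ⟨Ideal.Quotient.mk _ f, by rw [← map_mul, hf], ?_⟩
    have h1 : Ideal.Quotient.mk (idA c hcc) y =
        Ideal.Quotient.mk (idA c hcc) (c * (c * y + (1 - c))) := by
      rw [map_mul, map_add, map_mul, map_sub, hmc, map_one]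
      noncomm_ring
    rw [h1, ← map_sub]
    exact hfn.map _
  obtain ⟨s, hs, hsn⟩ := h (R ⧸ idA c hcc) hS2 hScl hSu (Ideal.Quotient.mk _ x)
  obtain ⟨e, rfl⟩ := Ideal.Quotient.mk_surjective s
  rw [← map_sub] at hsn
  have h1 := hnil _ hsn
  rw [← map_mul, Ideal.Quotient.eq] at hs
  obtain ⟨b, hb⟩ := hs
  have h2 : c * e * (c * e) - c * e = 2 * c * b := by
    rw [← hcb _ b hb]
    have : c * e * (c * e) = c * (e * c) * e := by noncomm_ring
    rw [this, ← hcc, ← mul_assoc, hc2]
    noncomm_ring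
  obtain ⟨f, b', hf, hfe⟩ := lift_one hcc hn h2
  refine ⟨f, hf, ?_⟩
  have h3 : c * x - f = c * (x - e) + 2 * c * (-b') := by
    rw [hfe]
    noncomm_ring
  rw [h3]
  exact nil_add h1 h2cc h2c

end Pool.Agent.CleanUWNC
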